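import Pool.Agent.H19.PL.Tri
import Pool.Agent.H85.Fold.Sgn

/-!
# Project PDL: exactness of the columns
-/

set_option autoImplicit false
set_option linter.unusedSectionVars false

open Finset

namespace Pool.Agent.H19.PL

open Pool.Agent.H4.FC Pool.Agent.H85.Fold

variable {V : Type} [Fintype V] [DecidableEq V] {M : CoxeterMatrix V}

section fn

variable {X : Type} [AddCommGroup X] [Module ℝ X]

theorem altF_anti {κ : Finset V} (hκ : Sph M κ) (f : M.Group → X) : AntiF M κ (altF M κ f) := by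
  intro v hv x
  unfold altF
  rw [← Finset.sum_neg_distrib]
  have hinv : ∀ u, u ∈ parF M κ → M.simple v * u ∈ parF M κ := by
    intro u hu
    rw [mem_parF hκ] at hu ⊢
    exact mul_mem (simple_mem_par M hv) hu
  refine Finset.sum_nbij' (fun u => M.simple v * u) (fun u => M.simple v * u) hinv hinv ?_ ?_ ?_
  · intro u _
    rw [← mul_assoc, simple_sq, one_mul]
  · intro u _
    rw [← mul_assoc, simple_sq, one_mul]
  · intro u _
    rw [er_mul, er_simple, mul_assoc, neg_one_mul, neg_smul, neg_neg]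

theorem altF_altF {ρ D : Finset V} (hD : Sph M D) (hρ : ρ ⊆ D) (f : M.Group → X) (w : M.Group) :
    altF M D (altF M ρ f) w = ((parF M ρ).card : ℝ) • altF M D f w := by
  have hρs : Sph M ρ := hD.mono hρ
  unfold altF
  simp only [smul_sum]
  rw [sum_comm]
  have h1 : ∀ t ∈ parF M ρ, ∑ u ∈ parF M D, er M u • er M t • f (w * u * t) =
      ∑ u ∈ parF M D, er M u • f (w * u) := by
    intro t ht
    rw [mem_parF hρs] at ht
    have ht' := par_mono M hρ ht
    refine Finset.sum_nbij' (fun u => u * t) (fun u => u * t⁻¹) ?_ ?_ ?_ ?_ ?_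
    · intro u hu
      rw [mem_parF hD] at hu ⊢
      exact mul_mem hu ht'
    · intro u hu
      rw [mem_parF hD] at hu ⊢
      exact mul_mem hu (inv_mem ht')
    · intro u _
      rw [mul_inv_cancel_right]
    · intro u _
      rw [inv_mul_cancel_right]
    · intro u _
      rw [smul_smul, er_mul, mul_assoc]
  rw [sum_congr rfl h1, sum_const, ← Nat.cast_smul_eq_nsmul ℝ, smul_sum]

theorem altF_smul (κ : Finset V) (r : ℝ) (f : M.Group → X) (x : M.Group) :
    altF M κ (r • f) x = r • altF M κ f x := by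
  unfold altF
  rw [smul_sum]
  refine sum_congr rfl fun u _ => ?_
  rw [Pi.smul_apply, smul_comm]

theorem altF_sum {ι : Type} (s : Finset ι) (κ : Finset V) (f : ι → M.Group → X) (x : M.Group) :
    altF M κ (∑ i ∈ s, f i) x = ∑ i ∈ s, altF M κ (f i) x := by
  classical
  induction s using Finset.induction_on with
  | empty =>
    rw [sum_empty, sum_empty]
    unfold altF
    exact sum_eq_zero fun u _ => by rw [Pi.zero_apply, smul_zero]
  | insert a s ha ih => rw [sum_insert ha, sum_insert ha, altF_add, ih]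

theorem AntiF.sub {κ : Finset V} {f g : M.Group → X} (hf : AntiF M κ f) (hg : AntiF M κ g) :
    AntiF M κ (f - g) := by
  intro v hv x
  rw [Pi.sub_apply, Pi.sub_apply, hf v hv, hg v hv]
  abel

theorem AntiF.smul {κ : Finset V} {f : M.Group → X} (r : ℝ) (hf : AntiF M κ f) :
    AntiF M κ (r • f) := by
  intro v hv x
  rw [Pi.smul_apply, Pi.smul_apply, hf v hv, smul_neg]

theorem AntiF.sum {ι : Type} (s : Finset ι) {κ : Finset V} {f : ι → M.Group → X}
    (hf : ∀ i ∈ s, AntiF M κ (f i)) : AntiF M κ (∑ i ∈ s, f i) := by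
  intro v hv x
  rw [Finset.sum_apply, Finset.sum_apply, ← sum_neg_distrib]
  exact sum_congr rfl fun i hi => hf i hi v hv x

end fn

section rep

variable {S : Type} [AddCommGroup S] [Module ℝ S] (U : M.Group →* Module.End ℝ S)

/-- anti-invariant elements -/
def AntiS (κ : Finset V) (x : S) : Prop := ∀ v ∈ κ, U (M.simple v) x = -x

/-- the antisymmetrization -/
noncomputable def PS (κ : Finset V) : S →ₗ[ℝ] S :=
  (1 / ((parF M κ).card : ℝ)) • ∑ u ∈ parF M κ, er M u • (U u : S →ₗ[ℝ] S)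

theorem PS_apply (κ : Finset V) (x : S) :
    PS U κ x = (1 / ((parF M κ).card : ℝ)) • ∑ u ∈ parF M κ, er M u • U u x := by
  unfold PS
  rw [LinearMap.smul_apply, LinearMap.sum_apply]
  rfl

/-- the orbit function -/
def orb (x : S) (g : M.Group) : S := U g x

theorem orb_anti {κ : Finset V} {x : S} (h : AntiS U κ x) : AntiF M κ (orb U x) := by
  intro v hv g
  unfold orb
  rw [map_mul]
  show U g (U (M.simple v) x) = -U g x
  rw [h v hv, map_neg]

theorem card_ne {κ : Finset V} (hκ : Sph M κ) : ((parF M κ).card : ℝ) ≠ 0 := by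
  exact_mod_cast (parF_card_pos hκ).ne'

theorem altF_orb {κ : Finset V} (hκ : Sph M κ) (x : S) (g : M.Group) :
    altF M κ (orb U x) g = ((parF M κ).card : ℝ) • U g (PS U κ x) := by
  rw [PS_apply, map_smul, smul_smul, mul_one_div_cancel (card_ne hκ), one_smul, map_sum]
  unfold altF orb
  refine sum_congr rfl fun u _ => ?_
  rw [map_smul, map_mul]
  rfl

/-- the fixed elements of the projection -/
theorem PS_fix {κ : Finset V} (hκ : Sph M κ) {x : S} (h : AntiS U κ x) : PS U κ x = x := by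
  rw [PS_apply]
  have h1 : ∀ u ∈ parF M κ, er M u • U u x = x := by
    intro u hu
    have h2 := (orb_anti U h).ext u ((mem_parF hκ u).1 hu) 1
    unfold orb at h2
    rw [one_mul, map_one] at h2
    have h3 : U u x = er M u • x := h2
    rw [h3, smul_smul, er_sq, one_smul]
  rw [sum_congr rfl h1, sum_const, ← Nat.cast_smul_eq_nsmul ℝ, smul_smul,
    one_div_mul_cancel (card_ne hκ), one_smul]

theorem PS_PS {ρ D : Finset V} (hD : Sph M D) (hρ : ρ ⊆ D) (x : S) :
    PS U D (PS U ρ x) = PS U D x := by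
  have hρs : Sph M ρ := hD.mono hρ
  have h1 := altF_altF hD hρ (orb U x) (1 : M.Group)
  have h2 : altF M ρ (orb U x) = ((parF M ρ).card : ℝ) • orb U (PS U ρ x) := by
    funext g
    rw [altF_orb U hρs]
    rfl
  rw [h2, altF_smul, altF_orb U hD, altF_orb U hD, map_one] at h1
  have h3 := smul_right_injective S (card_ne hρs) h1
  exact smul_right_injective S (card_ne hD) h3

theorem PS_anti {κ : Finset V} (hκ : Sph M κ) (x : S) : AntiS U κ (PS U κ x) := by
  intro v hv
  have h1 := altF_anti hκ (orb U x) v hv 1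
  rw [altF_orb U hκ, altF_orb U hκ, one_mul, map_one, ← smul_neg] at h1
  exact smul_right_injective S (card_ne hκ) h1

/-- the average over left translations -/
noncomputable def avg (τ : Finset V) (f : M.Group → S) : S :=
  (1 / ((parF M τ).card : ℝ)) • ∑ g ∈ parF M τ, U g⁻¹ (f g)

theorem avg_orb {τ : Finset V} (hτ : Sph M τ) (x : S) : avg U τ (orb U x) = x := by
  unfold avg
  have h1 : ∀ g ∈ parF M τ, U g⁻¹ (orb U x g) = x := by
    intro g _
    have h2 : U g⁻¹ (U g x) = (U g⁻¹ * U g) x := rfl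
    unfold orb
    rw [h2, ← map_mul, inv_mul_cancel, map_one]
    rfl
  rw [sum_congr rfl h1, sum_const, ← Nat.cast_smul_eq_nsmul ℝ, smul_smul,
    one_div_mul_cancel (card_ne hτ), one_smul]

theorem avg_congr {τ : Finset V} (hτ : Sph M τ) {f g : M.Group → S}
    (h : ∀ x ∈ par M τ, f x = g x) : avg U τ f = avg U τ g := by
  unfold avg
  congr 1
  exact sum_congr rfl fun x hx => by rw [h x ((mem_parF hτ x).1 hx)]

theorem avg_smul (τ : Finset V) (r : ℝ) (f : M.Group → S) : avg U τ (r • f) = r • avg U τ f := by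
  unfold avg
  have h : ∀ g ∈ parF M τ, U g⁻¹ ((r • f) g) = r • U g⁻¹ (f g) := fun g _ => by
    rw [Pi.smul_apply, map_smul]
  rw [sum_congr rfl h, ← smul_sum, smul_comm]

theorem avg_sum {ι : Type} (s : Finset ι) (τ : Finset V) (f : ι → M.Group → S) :
    avg U τ (∑ i ∈ s, f i) = ∑ i ∈ s, avg U τ (f i) := by
  unfold avg
  rw [← smul_sum, sum_comm]
  congr 1
  refine sum_congr rfl fun x _ => ?_
  rw [Finset.sum_apply, map_sum]

/-- the average commutes with right translations -/
theorem avg_right {τ : Finset V} (hτ : Sph M τ) (f : M.Group → S) {t : M.Group}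
    (ht : t ∈ par M τ) : U t (avg U τ f) = avg U τ (fun g => f (g * t)) := by
  unfold avg
  rw [map_smul, map_sum]
  congr 1
  refine Finset.sum_nbij' (fun g => g * t⁻¹) (fun g => g * t) ?_ ?_ ?_ ?_ ?_
  · intro g hg
    rw [mem_parF hτ] at hg ⊢
    exact mul_mem hg (inv_mem ht)
  · intro g hg
    rw [mem_parF hτ] at hg ⊢
    exact mul_mem hg ht
  · intro g _
    rw [inv_mul_cancel_right]
  · intro g _
    rw [mul_inv_cancel_right]
  · intro g _
    beta_reduce
    rw [inv_mul_cancel_right, mul_inv_rev, inv_inv, map_mul]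
    rfl

theorem avg_anti {τ κ : Finset V} (hτ : Sph M τ) (hκ : κ ⊆ τ) {f : M.Group → S}
    (hf : AntiF M κ f) : AntiS U κ (avg U τ f) := by
  intro v hv
  rw [avg_right U hτ f (simple_mem_par M (hκ hv))]
  have h1 : (fun g => f (g * M.simple v)) = (-1 : ℝ) • f := by
    funext g
    rw [hf v hv, Pi.smul_apply, neg_one_smul]
  rw [h1, avg_smul, neg_one_smul]

theorem PS_avg {τ ρ : Finset V} (hτ : Sph M τ) (hρ : ρ ⊆ τ) (f : M.Group → S) :
    PS U ρ (avg U τ f) = avg U τ ((1 / ((parF M ρ).card : ℝ)) • altF M ρ f) := by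
  rw [PS_apply, avg_smul]
  congr 1
  have h1 : altF M ρ f = ∑ u ∈ parF M ρ, er M u • (fun g => f (g * u)) := by
    funext g
    unfold altF
    rw [Finset.sum_apply]
    rfl
  rw [h1, avg_sum]
  refine sum_congr rfl fun u hu => ?_
  rw [avg_smul, avg_right U hτ f (par_mono M hρ ((mem_parF (hτ.mono hρ) u).1 hu))]

/-- **The columns of the adjoint double complex are exact.** -/
theorem colL {ν : V → ℕ} (hν : Function.Injective ν) (l : ℕ) (τ : Finset V) (hτ : Sph M τ)
    (w : Finset V → S) (hA : ∀ ρ, AntiS U ρ (w ρ))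
    (hs : ∀ ρ, w ρ ≠ 0 → ρ ⊆ τ ∧ ρ.card = l + 1)
    (hD : ∀ ρ ⊆ τ, ∑ v ∈ ρ, sgn ν v ρ • PS U ρ (w (ρ.erase v)) = 0) :
    ∃ u : Finset V → S, (∀ ρ, AntiS U ρ (u ρ)) ∧ (∀ ρ, u ρ ≠ 0 → ρ ⊆ τ ∧ ρ.card = l) ∧
      ∀ ρ ⊆ τ, ∑ v ∈ ρ, sgn ν v ρ • PS U ρ (u (ρ.erase v)) = w ρ := by
  classical
  -- the coordinates
  obtain ⟨x, hx⟩ : ∃ x : M.Group → Finset V → S, ∀ g ρ,
      x g ρ = altF M (dsF M τ g) (orb U (w ρ)) g := ⟨_, fun _ _ => rfl⟩
  have hcoc : ∀ g : M.Group, ∀ ρ ⊆ dsF M τ g, ∑ v ∈ ρ, sgn ν v ρ • x g (ρ.erase v) = 0 := by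
    intro g ρ hρ
    have hDs : Sph M (dsF M τ g) := hτ.mono dsF_sub
    have h1 : ∀ v ∈ ρ, sgn ν v ρ • x g (ρ.erase v) = ((parF M (dsF M τ g)).card : ℝ) •
        U g (PS U (dsF M τ g) (sgn ν v ρ • PS U ρ (w (ρ.erase v)))) := by
      intro v _
      rw [hx, altF_orb U hDs, map_smul, map_smul, PS_PS U hDs hρ, smul_comm]
    rw [sum_congr rfl h1, ← smul_sum, ← map_sum, ← map_sum, hD ρ (hρ.trans dsF_sub), map_zero,
      map_zero, smul_zero]
  obtain ⟨b, hb⟩ : ∃ b : M.Group → Option V, ∀ g, (dsF M τ g).Nonempty →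
      ∃ c ∈ dsF M τ g, b g = some c := by
    refine ⟨fun g => if h : (dsF M τ g).Nonempty then some h.choose else none, fun g hg => ?_⟩
    exact ⟨hg.choose, hg.choose_spec, dif_pos hg⟩
  obtain ⟨y, hy⟩ : ∃ y : Finset V → M.Group → S, ∀ κ g, ∀ c, b g = some c →
      y κ g = if c ∈ κ then 0 else sgn ν c κ • x g (insert c κ) := by
    refine ⟨fun κ g => match b g with
      | none => 0
      | some c => if c ∈ κ then 0 else sgn ν c κ • x g (insert c κ), fun κ g c hc => ?_⟩
    simp only [hc]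
  -- the homotopy formula
  have hhom : ∀ g : M.Group, ∀ ρ ⊆ dsF M τ g, ρ.Nonempty →
      ∑ v ∈ ρ, sgn ν v ρ • y (ρ.erase v) g = x g ρ := by
    intro g ρ hρ hne
    obtain ⟨c, hc, hbc⟩ := hb g (hne.mono hρ)
    have h1 : ∀ v ∈ ρ, sgn ν v ρ • y (ρ.erase v) g = sgn ν v ρ • (if c ∈ ρ.erase v then 0 else
        sgn ν c (ρ.erase v) • x g (insert c (ρ.erase v))) := fun v _ => by rw [hy _ g c hbc]
    rw [sum_congr rfl h1]
    by_cases hcρ : c ∈ ρ
    · rw [sum_eq_single c]
      · rw [if_neg (notMem_erase c ρ), insert_erase hcρ, smul_smul, sgn_erase_self, sgn_sq,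
          one_smul]
      · intro v _ hvc
        rw [if_pos (mem_erase.2 ⟨fun h => hvc h.symm, hcρ⟩), smul_zero]
      · exact fun h => absurd hcρ h
    · have h5 := hcoc g (insert c ρ) (insert_subset hc hρ)
      rw [sum_insert hcρ, erase_insert hcρ, sgn_insert_self] at h5
      have h6 : ∀ v ∈ ρ, sgn ν v ρ • (if c ∈ ρ.erase v then 0 else
          sgn ν c (ρ.erase v) • x g (insert c (ρ.erase v))) =
          -(sgn ν c ρ • (sgn ν v (insert c ρ) • x g ((insert c ρ).erase v))) := by
        intro v hv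
        have hvc : v ≠ c := fun h => hcρ (h ▸ hv)
        rw [if_neg (fun h => hcρ (mem_of_mem_erase h)), smul_smul, smul_smul,
          ← neg_smul, erase_insert_of_ne (fun h => hvc h.symm)]
        congr 1
        have h7 := sgn_swap_mix ν hν v c hvc ρ hv hcρ
        linarith
      rw [sum_congr rfl h6, sum_neg_distrib, ← smul_sum]
      have h8 : ∑ v ∈ ρ, sgn ν v (insert c ρ) • x g ((insert c ρ).erase v) =
          -(sgn ν c ρ • x g ρ) := by
        rw [eq_neg_iff_add_eq_zero, add_comm]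
        exact h5
      rw [h8, smul_neg, neg_neg, smul_smul, sgn_sq, one_smul]
  -- the solution on functions
  have hsol : ∀ κ : Finset V, ∃ f : M.Group → S, κ ⊆ τ → AntiF M κ f ∧
      ∀ g ∈ par M τ, κ ⊆ dsF M τ g → altF M (dsF M τ g) f g = y κ g := by
    intro κ
    by_cases hκ : κ ⊆ τ
    · obtain ⟨f, hf⟩ := tri_surj (M := M) hτ hκ (y κ)
      exact ⟨f, fun _ => hf⟩
    · exact ⟨0, fun h => absurd h hκ⟩
  choose f hf using hsol
  refine ⟨fun κ => if κ ⊆ τ ∧ κ.card = l then avg U τ (f κ) else 0, ?_, ?_, ?_⟩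
  · intro κ
    beta_reduce
    split_ifs with h
    · exact avg_anti U hτ h.1 (hf κ h.1).1
    · intro v _
      rw [map_zero, neg_zero]
  · intro κ h
    beta_reduce at h
    by_contra hcon
    exact h (if_neg hcon)
  · intro ρ hρ
    beta_reduce
    by_cases hcard : ρ.card = l + 1
    · have hρs : Sph M ρ := hτ.mono hρ
      have hne : ρ.Nonempty := by
        rw [← card_pos]
        omega
      obtain ⟨G, hG⟩ : ∃ G : M.Group → S, G = ∑ v ∈ ρ, sgn ν v ρ •
          ((1 / ((parF M ρ).card : ℝ)) • altF M ρ (f (ρ.erase v))) := ⟨_, rfl⟩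
      have h1 : ∀ v ∈ ρ, sgn ν v ρ • PS U ρ (if ρ.erase v ⊆ τ ∧ (ρ.erase v).card = l then
          avg U τ (f (ρ.erase v)) else 0) = avg U τ (sgn ν v ρ •
          ((1 / ((parF M ρ).card : ℝ)) • altF M ρ (f (ρ.erase v)))) := by
        intro v hv
        have h3 := card_erase_of_mem hv
        rw [if_pos ⟨(erase_subset _ _).trans hρ, by omega⟩,
          PS_avg U hτ hρ, avg_smul U τ (sgn ν v ρ)]
      rw [sum_congr rfl h1, ← avg_sum, ← hG]
      have hGa : AntiF M ρ G := by
        rw [hG]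
        exact AntiF.sum ρ fun v _ => ((altF_anti hρs _).smul _).smul _
      have h2 : ∀ g ∈ par M τ, G g = orb U (w ρ) g := by
        intro g hg
        have h3 := tri_inj (M := M) hτ hρ (hGa.sub (orb_anti U (hA ρ))) (by
          intro g' hg' hgρ
          have hDs : Sph M (dsF M τ g') := hτ.mono dsF_sub
          have h4 : altF M (dsF M τ g') G g' = x g' ρ := by
            rw [hG, altF_sum, ← hhom g' ρ hgρ hne]
            refine sum_congr rfl fun v hv => ?_
            rw [altF_smul, altF_smul, altF_altF hDs hgρ, smul_smul (1 / _),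
              one_div_mul_cancel (card_ne hρs), one_smul,
              (hf (ρ.erase v) ((erase_subset _ _).trans hρ)).2 g' hg'
                ((erase_subset _ _).trans hgρ)]
          have h5 : G - orb U (w ρ) = G + (-1 : ℝ) • orb U (w ρ) := by
            rw [neg_one_smul, sub_eq_add_neg]
          rw [h5, altF_add, altF_smul, h4, hx, neg_one_smul, add_neg_cancel]) g hg
        rw [Pi.sub_apply, sub_eq_zero] at h3
        exact h3
      rw [avg_congr U hτ h2, avg_orb U hτ]
    · have h0 : w ρ = 0 := by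
        by_contra hne
        exact hcard (hs ρ hne).2
      rw [h0]
      refine sum_eq_zero fun v hv => ?_
      rw [if_neg, map_zero, smul_zero]
      rintro ⟨-, h1⟩
      rw [card_erase_of_mem hv] at h1
      have h2 := card_pos.2 ⟨v, hv⟩
      omega

end rep

end Pool.Agent.H19.PL
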