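import Pool.Agent.H73.LK.Ind

/-!
# Project PDL: descents and parabolic subgroups

For a finite parabolic subgroup `W_κ` every coset `w W_κ` contains a unique element `m` all of whose
right descents contain `κ`; it is the longest element of the coset.
-/

set_option autoImplicit false
set_option linter.unusedSectionVars false

open Finset

namespace Pool.Agent.H19.PL

open Pool.Agent.H4.FC Pool.Agent.H73.LK

variable {V : Type} [Fintype V] [DecidableEq V]

/-- right descents -/
def Ds (M : CoxeterMatrix V) (w : M.Group) (v : V) : Prop :=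
  M.toCoxeterSystem.IsRightDescent w v

/-- the length -/
noncomputable def len (M : CoxeterMatrix V) (w : M.Group) : ℕ := M.toCoxeterSystem.length w

theorem ds_iff {M : CoxeterMatrix V} {w : M.Group} {v : V} :
    Ds M w v ↔ len M (w * M.simple v) + 1 = len M w := by
  unfold Ds len
  rw [M.toCoxeterSystem.isRightDescent_iff, M.toCoxeterSystem_simple]

theorem not_ds_iff {M : CoxeterMatrix V} {w : M.Group} {v : V} :
    ¬ Ds M w v ↔ len M (w * M.simple v) = len M w + 1 := by
  unfold Ds len
  rw [M.toCoxeterSystem.not_isRightDescent_iff, M.toCoxeterSystem_simple]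

private theorem ext_neg_root (M : CoxeterMatrix V) (w : M.Group) (v : V) (h : Ds M w v) (i : V) :
    (titsHom M w).mulVec (Pi.single v 1) i ≤ 0 := by
  have h1 : ¬ M.toCoxeterSystem.IsRightDescent (w * M.toCoxeterSystem.simple v) v :=
    M.toCoxeterSystem.isRightDescent_iff_not_isRightDescent_mul.mp h
  have h2 := tits_pos M _ v h1 i
  have e2 : titsHom M (M.toCoxeterSystem.simple v) = refl (kR M) v := titsHom_simple M v
  rw [map_mul, ← Matrix.mulVec_mulVec, e2, refl_mulVec] at h2
  have h3 : ∑ u, kR M v u * (Pi.single v 1 : V → ℝ) u = 2 := by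
    rw [Finset.sum_eq_single v]
    · rw [Pi.single_eq_same, mul_one, kR_self]
    · intro u _ hu
      rw [Pi.single_eq_of_ne hu, mul_zero]
    · intro hu
      exact absurd (Finset.mem_univ v) hu
  rw [h3] at h2
  have h4 : (Pi.single v 1 : V → ℝ) - (2 : ℝ) • Pi.single v 1 = -Pi.single v 1 := by
    rw [two_smul]
    abel
  rw [h4, Matrix.mulVec_neg, Pi.neg_apply] at h2
  linarith

/-- extension by zero -/
private noncomputable def cxext (Y : Finset V) (x : {v // v ∈ Y} → ℝ) (v : V) : ℝ :=
  if h : v ∈ Y then x ⟨v, h⟩ else 0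

private theorem cxext_sub (Y : Finset V) (x y : {v // v ∈ Y} → ℝ) (r : ℝ) :
    cxext Y (x - r • y) = cxext Y x - r • cxext Y y := by
  funext v
  unfold cxext
  by_cases h : v ∈ Y
  · simp [h]
  · simp [h]

private theorem cxext_single (Y : Finset V) (v : {v // v ∈ Y}) :
    cxext Y (Pi.single v 1) = Pi.single v.1 1 := by
  funext u
  unfold cxext
  by_cases h : u ∈ Y
  · rw [dif_pos h]
    by_cases h1 : u = v.1
    · subst h1
      rw [Pi.single_eq_same, Pi.single_eq_same]
    · rw [Pi.single_eq_of_ne h1, Pi.single_eq_of_ne]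
      exact fun h2 => h1 (congrArg Subtype.val h2)
  · rw [dif_neg h, Pi.single_eq_of_ne]
    exact fun h1 => h (h1 ▸ v.2)

private theorem cx_tits (M : CoxeterMatrix V) (Y : Finset V) (w : (sub M Y).Group)
    (x : {v // v ∈ Y} → ℝ) :
    (titsHom M (ind_hom M Y w)).mulVec (cxext Y x) = cxext Y ((titsHom (sub M Y) w).mulVec x) := by
  induction w using (sub M Y).toCoxeterSystem.simple_induction_left generalizing x with
  | one => rw [map_one, map_one, map_one, Matrix.one_mulVec, Matrix.one_mulVec]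
  | mul_simple_left w i ih =>
    have e1 : (sub M Y).toCoxeterSystem.simple i = (sub M Y).simple i := by
      rw [(sub M Y).toCoxeterSystem_simple]
    rw [e1, map_mul, map_mul, map_mul, ind_hom_simple, ← Matrix.mulVec_mulVec, ← Matrix.mulVec_mulVec, ih]
    have e2 : titsHom M (M.simple i.1) = refl (kR M) i.1 := titsHom_simple M i.1
    have e3 : titsHom (sub M Y) ((sub M Y).simple i) = refl (kR (sub M Y)) i := titsHom_simple _ i
    rw [e2, e3, refl_mulVec, refl_mulVec, cxext_sub, cxext_single]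
    congr 2
    have h1 : ∀ u ∉ Y, kR M i.1 u * cxext Y ((titsHom (sub M Y) w).mulVec x) u = 0 := by
      intro u hu
      unfold cxext
      rw [dif_neg hu, mul_zero]
    rw [← Finset.sum_subset (Finset.subset_univ Y) fun u _ hu => h1 u hu, ← Finset.sum_coe_sort]
    refine Finset.sum_congr rfl fun u _ => ?_
    have h2 : cxext Y ((titsHom (sub M Y) w).mulVec x) u.1 = (titsHom (sub M Y) w).mulVec x u := by
      unfold cxext
      rw [dif_pos u.2]
    rw [h2]
    rfl

/-- a nontrivial element of `W_κ` makes some simple root `α_v`, `v ∈ κ`, a nonpositive combination of the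
`α_x`, `x ∈ κ` -/
theorem neg_root (M : CoxeterMatrix V) {κ : Finset V} {u : M.Group} (hu : u ∈ par M κ) (h1 : u ≠ 1) :
    ∃ v ∈ κ, ∃ c : V → ℝ, (∀ x, 0 ≤ c x) ∧ (∀ x, x ∉ κ → c x = 0) ∧
      (titsHom M u).mulVec (Pi.single v 1) = -c := by
  have hle : par M κ ≤ (ind_hom M κ).range := by
    unfold par
    rw [Subgroup.closure_le]
    rintro w ⟨v, hv, rfl⟩
    exact ⟨(sub M κ).simple ⟨v, hv⟩, ind_hom_simple M κ ⟨v, hv⟩⟩
  obtain ⟨u', rfl⟩ := hle hu
  have hu' : u' ≠ 1 := by
    rintro rfl
    exact h1 (map_one _)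
  obtain ⟨v, hv⟩ := (sub M κ).toCoxeterSystem.exists_rightDescent_of_ne_one hu'
  refine ⟨v.1, v.2, fun x => -cxext κ ((titsHom (sub M κ) u').mulVec (Pi.single v 1)) x, ?_, ?_, ?_⟩
  · intro x
    by_cases hx : x ∈ κ
    · have h2 := ext_neg_root (sub M κ) u' v hv ⟨x, hx⟩
      unfold cxext
      beta_reduce
      rw [dif_pos hx]
      linarith
    · unfold cxext
      beta_reduce
      rw [dif_neg hx, neg_zero]
  · intro x hx
    unfold cxext
    beta_reduce
    rw [dif_neg hx, neg_zero]
  · have h2 := cx_tits M κ u' (Pi.single v 1)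
    rw [cxext_single] at h2
    rw [h2]
    funext x
    simp

/-- a combination of vectors -/
private theorem mulVec_expand (A : Matrix V V ℝ) (c : V → ℝ) (i : V) :
    A.mulVec c i = ∑ x, c x * A.mulVec (Pi.single x 1) i := by
  unfold Matrix.mulVec dotProduct
  refine Finset.sum_congr rfl fun x _ => ?_
  rw [Finset.sum_eq_single x]
  · rw [Pi.single_eq_same, mul_one, mul_comm]
  · intro y _ hy
    rw [Pi.single_eq_of_ne hy, mul_zero]
  · intro h
    exact absurd (Finset.mem_univ x) h

/-- **Uniqueness.** -/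
theorem uniq (M : CoxeterMatrix V) {κ : Finset V} {m u : M.Group} (hu : u ∈ par M κ)
    (h1 : ∀ v ∈ κ, Ds M m v) (h2 : ∀ v ∈ κ, Ds M (m * u) v) : u = 1 := by
  by_contra hne
  obtain ⟨v, hv, c, hc, hcκ, hcv⟩ := neg_root M hu hne
  have h3 : ∀ i, (titsHom M (m * u)).mulVec (Pi.single v 1) i = 0 := by
    intro i
    apply le_antisymm (ext_neg_root M _ v (h2 v hv) i)
    rw [map_mul, ← Matrix.mulVec_mulVec, hcv, Matrix.mulVec_neg, Pi.neg_apply, mulVec_expand]
    have h4 : ∑ x, c x * (titsHom M m).mulVec (Pi.single x 1) i ≤ 0 := by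
      refine Finset.sum_nonpos fun x _ => ?_
      by_cases hx : x ∈ κ
      · exact mul_nonpos_of_nonneg_of_nonpos (hc x) (ext_neg_root M m x (h1 x hx) i)
      · rw [hcκ x hx, zero_mul]
    linarith
  have h4 : (titsHom M (m * u)).mulVec (Pi.single v 1) = 0 := funext h3
  have h5 : (titsHom M ((m * u)⁻¹)).mulVec ((titsHom M (m * u)).mulVec (Pi.single v 1)) = Pi.single v 1 := by
    rw [Matrix.mulVec_mulVec, ← map_mul, inv_mul_cancel, map_one, Matrix.one_mulVec]
  rw [h4, Matrix.mulVec_zero] at h5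
  have h6 := congrFun h5 v
  rw [Pi.single_eq_same, Pi.zero_apply] at h6
  exact zero_ne_one h6

/-- the longest element of a coset -/
theorem exists_max (M : CoxeterMatrix V) {κ : Finset V} (hκ : Sph M κ) (w : M.Group) :
    ∃ u ∈ par M κ, (∀ v ∈ κ, Ds M (w * u) v) ∧ ∀ u' ∈ par M κ, len M (w * u') ≤ len M (w * u) := by
  have hne : (parF M κ).Nonempty := ⟨1, (mem_parF hκ 1).2 (one_mem _)⟩
  obtain ⟨u, hu, hmax⟩ := Finset.exists_max_image (parF M κ) (fun u => len M (w * u)) hne
  rw [mem_parF hκ] at hu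
  refine ⟨u, hu, fun v hv => ?_, fun u' hu' => hmax u' ((mem_parF hκ u').2 hu')⟩
  by_contra h
  rw [not_ds_iff] at h
  have h1 := hmax (u * M.simple v) ((mem_parF hκ _).2 (mul_mem hu (simple_mem_par M hv)))
  rw [← mul_assoc] at h1
  omega

/-- **The longest element.** -/
theorem len_lt (M : CoxeterMatrix V) {κ : Finset V} (hκ : Sph M κ) {m u : M.Group}
    (hu : u ∈ par M κ) (h1 : ∀ v ∈ κ, Ds M m v) (hne : u ≠ 1) : len M (m * u) < len M m := by
  obtain ⟨t, ht, htd, htm⟩ := exists_max M hκ m
  have ht1 : t = 1 := uniq M ht h1 htd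
  rw [ht1, mul_one] at htm
  refine lt_of_le_of_ne (htm u hu) fun heq => hne ?_
  refine uniq M hu h1 fun v hv => ?_
  by_contra h
  rw [not_ds_iff] at h
  have h2 := htm (u * M.simple v) (mul_mem hu (simple_mem_par M hv))
  rw [← mul_assoc] at h2
  omega

end Pool.Agent.H19.PL
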