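import Pool.Agent.H19.PL.Cox

/-!
# Project PDL: triangular systems
-/

set_option autoImplicit false
set_option linter.unusedSectionVars false

open Finset

namespace Pool.Agent.H19.PL

open Pool.Agent.H4.FC

variable {V : Type} [Fintype V] [DecidableEq V] {X : Type} [AddCommGroup X] [Module ℝ X]
  {M : CoxeterMatrix V}

/-- the sign as a real number -/
noncomputable def er (M : CoxeterMatrix V) (u : M.Group) : ℝ := ((eps M u : ℤ) : ℝ)

theorem er_one : er M 1 = 1 := by
  unfold er
  rw [map_one, Int.cast_one]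

theorem er_mul (u w : M.Group) : er M (u * w) = er M u * er M w := by
  unfold er
  rw [map_mul, Int.cast_mul]

theorem er_simple (v : V) : er M (M.simple v) = -1 := by
  unfold er
  rw [eps_simple]
  norm_num

theorem er_sq (u : M.Group) : er M u * er M u = 1 := by
  unfold er
  exact_mod_cast eps_mul_self M u

theorem er_inv (u : M.Group) : er M u⁻¹ = er M u := by
  unfold er
  rw [eps_inv]

theorem er_ne (u : M.Group) : er M u ≠ 0 := fun h => by
  have h1 := er_sq u
  rw [h, mul_zero] at h1
  exact zero_ne_one h1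

/-- functions which are right anti-invariant -/
def AntiF (M : CoxeterMatrix V) (κ : Finset V) (f : M.Group → X) : Prop :=
  ∀ v ∈ κ, ∀ x, f (x * M.simple v) = -f x

theorem AntiF.ext {κ : Finset V} {f : M.Group → X} (h : AntiF M κ f) :
    ∀ u ∈ par M κ, ∀ x, f (x * u) = er M u • f x := by
  refine par_induction M κ ?_ ?_
  · intro x
    rw [mul_one, er_one, one_smul]
  · intro v hv w ih x
    rw [← mul_assoc, ih, h v hv, er_mul, er_simple, smul_neg, neg_one_mul, neg_smul]

/-- the alternating sum over a finite parabolic subgroup -/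
noncomputable def altF (M : CoxeterMatrix V) (κ : Finset V) (f : M.Group → X) (x : M.Group) : X :=
  ∑ u ∈ parF M κ, er M u • f (x * u)

theorem altF_add (κ : Finset V) (f g : M.Group → X) (x : M.Group) :
    altF M κ (f + g) x = altF M κ f x + altF M κ g x := by
  unfold altF
  rw [← sum_add_distrib]
  refine sum_congr rfl fun u _ => ?_
  rw [Pi.add_apply, smul_add]

theorem alt_top {κ D : Finset V} (hD : Sph M D) (hκ : κ ⊆ D) {f : M.Group → X} (hf : AntiF M κ f)
    {w : M.Group} (h0 : ∀ u ∈ par M D, u ∉ par M κ → f (w * u) = 0) :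
    altF M D f w = ((parF M κ).card : ℝ) • f w := by
  have hκs : Sph M κ := hD.mono hκ
  unfold altF
  have hsub : parF M κ ⊆ parF M D := by
    intro u hu
    rw [mem_parF hκs] at hu
    rw [mem_parF hD]
    exact par_mono M hκ hu
  rw [← sum_subset hsub]
  · have h1 : ∀ u ∈ parF M κ, er M u • f (w * u) = f w := by
      intro u hu
      rw [mem_parF hκs] at hu
      rw [hf.ext u hu, smul_smul, er_sq, one_smul]
    rw [sum_congr rfl h1, sum_const, ← Nat.cast_smul_eq_nsmul ℝ]
  · intro u hu hu'
    rw [mem_parF hD] at hu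
    rw [mem_parF hκs] at hu'
    rw [h0 u hu hu', smul_zero]

open Classical in
/-- the descents in `τ` -/
noncomputable def dsF (M : CoxeterMatrix V) (τ : Finset V) (w : M.Group) : Finset V :=
  τ.filter fun v => Ds M w v

theorem mem_dsF {τ : Finset V} {w : M.Group} {v : V} : v ∈ dsF M τ w ↔ v ∈ τ ∧ Ds M w v := by
  classical
  exact Finset.mem_filter

theorem dsF_sub {τ : Finset V} {w : M.Group} : dsF M τ w ⊆ τ := fun _ h => (mem_dsF.1 h).1

/-- to the longest element of the coset -/
noncomputable def mu {κ : Finset V} (hκ : Sph M κ) (x : M.Group) : M.Group := (exists_max M hκ x).choose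

theorem mu_mem {κ : Finset V} (hκ : Sph M κ) (x : M.Group) : mu hκ x ∈ par M κ :=
  (exists_max M hκ x).choose_spec.1

theorem mu_ds {κ : Finset V} (hκ : Sph M κ) (x : M.Group) : ∀ v ∈ κ, Ds M (x * mu hκ x) v :=
  (exists_max M hκ x).choose_spec.2.1

theorem mu_uniq {κ : Finset V} (hκ : Sph M κ) (x a : M.Group) (ha : a ∈ par M κ)
    (h : ∀ v ∈ κ, Ds M (x * a) v) : mu hκ x = a := by
  have h1 := uniq M (mul_mem (inv_mem ha) (mu_mem hκ x)) h (by
    have h2 := mu_ds hκ x
    rw [mul_assoc, mul_inv_cancel_left]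
    exact h2)
  rw [inv_mul_eq_one] at h1
  exact h1.symm

theorem mu_mul {κ : Finset V} (hκ : Sph M κ) (x a : M.Group) (ha : a ∈ par M κ) :
    mu hκ (x * a) = a⁻¹ * mu hκ x := by
  refine mu_uniq hκ _ _ (mul_mem (inv_mem ha) (mu_mem hκ x)) ?_
  rw [mul_assoc, mul_inv_cancel_left]
  exact mu_ds hκ x

/-- the longest element of another coset of `W_κ` in the coset of `W_D` is shorter -/
theorem mu_lt {κ D : Finset V} (hD : Sph M D) (hκ : κ ⊆ D) {w u : M.Group}
    (hw : ∀ v ∈ D, Ds M w v) (hu : u ∈ par M D) (hu' : u ∉ par M κ) :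
    len M (w * u * mu (hD.mono hκ) (w * u)) < len M w := by
  have h1 := mu_mem (hD.mono hκ) (w * u)
  rw [mul_assoc]
  refine len_lt M hD (mul_mem hu (par_mono M hκ h1)) hw fun h2 => hu' ?_
  rw [mul_eq_one_iff_eq_inv] at h2
  rw [h2]
  exact inv_mem h1

/-- **Triangularity, injectivity.** -/
theorem tri_inj {τ κ : Finset V} (hτ : Sph M τ) (hκ : κ ⊆ τ) {f : M.Group → X} (hf : AntiF M κ f)
    (h : ∀ w ∈ par M τ, κ ⊆ dsF M τ w → altF M (dsF M τ w) f w = 0) :
    ∀ x ∈ par M τ, f x = 0 := by
  have hκs : Sph M κ := hτ.mono hκ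
  have key : ∀ n : ℕ, ∀ w ∈ par M τ, κ ⊆ dsF M τ w → len M w = n → f w = 0 := by
    intro n
    induction n using Nat.strong_induction_on with
    | _ n ih =>
    intro w hw hwκ hn
    have hD : Sph M (dsF M τ w) := hτ.mono dsF_sub
    have h1 := alt_top (f := f) (w := w) hD hwκ hf (by
      intro u hu hu'
      obtain ⟨m, hm⟩ : ∃ m, m = w * u * mu hκs (w * u) := ⟨_, rfl⟩
      have h2 : len M m < len M w := by
        rw [hm]
        exact mu_lt hD hwκ (fun v hv => (mem_dsF.1 hv).2) hu hu'
      have h3 : m ∈ par M τ := by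
        rw [hm]
        exact mul_mem (mul_mem hw (par_mono M dsF_sub hu)) (par_mono M hκ (mu_mem hκs _))
      have h4 : κ ⊆ dsF M τ m := by
        intro v hv
        rw [mem_dsF]
        refine ⟨hκ hv, ?_⟩
        rw [hm]
        exact mu_ds hκs (w * u) v hv
      have h5 := ih (len M m) (by omega) m h3 h4 rfl
      rw [hm, hf.ext _ (mu_mem hκs _), smul_eq_zero] at h5
      exact h5.resolve_left (er_ne _))
    rw [h w hw hwκ] at h1
    have h2 := (smul_eq_zero.1 h1.symm).resolve_left
    apply h2
    exact_mod_cast (parF_card_pos hκs).ne'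
  intro x hx
  have h1 := key _ (x * mu hκs x) (mul_mem hx (par_mono M hκ (mu_mem hκs _))) (by
    intro v hv
    rw [mem_dsF]
    exact ⟨hκ hv, mu_ds hκs x v hv⟩) rfl
  rw [hf.ext _ (mu_mem hκs _), smul_eq_zero] at h1
  exact h1.resolve_left (er_ne _)

/-- **Triangularity, surjectivity.** -/
theorem tri_surj {τ κ : Finset V} (hτ : Sph M τ) (hκ : κ ⊆ τ) (y : M.Group → X) :
    ∃ f : M.Group → X, AntiF M κ f ∧
      ∀ w ∈ par M τ, κ ⊆ dsF M τ w → altF M (dsF M τ w) f w = y w := by
  classical
  have hκs : Sph M κ := hτ.mono hκ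
  have key : ∀ n : ℕ, ∃ f : M.Group → X, AntiF M κ f ∧
      ∀ w ∈ par M τ, κ ⊆ dsF M τ w → len M w < n → altF M (dsF M τ w) f w = y w := by
    intro n
    induction n with
    | zero =>
      exact ⟨0, fun v _ x => by simp, fun w _ _ h => absurd h (Nat.not_lt_zero _)⟩
    | succ n ih =>
      obtain ⟨f, hf, hfy⟩ := ih
      obtain ⟨δ, hδ⟩ : ∃ δ : M.Group → X, ∀ w, δ w = (1 / ((parF M κ).card : ℝ)) •
          (y w - altF M (dsF M τ w) f w) := ⟨_, fun _ => rfl⟩
      obtain ⟨g, hg⟩ : ∃ g : M.Group → X, ∀ x, g x = if len M (x * mu hκs x) = n then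
          er M (mu hκs x) • δ (x * mu hκs x) else 0 := ⟨_, fun _ => rfl⟩
      have hga : AntiF M κ g := by
        intro v hv x
        have h1 := mu_mul hκs x (M.simple v) (simple_mem_par M hv)
        have h2 : x * M.simple v * mu hκs (x * M.simple v) = x * mu hκs x := by
          rw [h1, simple_inv, mul_assoc, ← mul_assoc (M.simple v), simple_sq, one_mul]
        rw [hg, hg, h2, h1, er_mul, simple_inv, er_simple]
        split_ifs
        · rw [neg_one_mul, neg_smul]
        · rw [neg_zero]
      refine ⟨f + g, fun v hv x => ?_, fun w hw hwκ hn => ?_⟩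
      · rw [Pi.add_apply, Pi.add_apply, hf v hv, hga v hv]
        abel
      · have hD : Sph M (dsF M τ w) := hτ.mono dsF_sub
        have hm1 : mu hκs w = 1 := by
          refine mu_uniq hκs w 1 (one_mem _) ?_
          rw [mul_one]
          exact fun v hv => (mem_dsF.1 (hwκ hv)).2
        have h1 := alt_top (f := g) (w := w) hD hwκ hga (by
          intro u hu hu'
          have h2 := mu_lt hD hwκ (fun v hv => (mem_dsF.1 hv).2) hu hu'
          rw [hg, if_neg]
          intro h3
          have h4 : len M (w * u * mu (hD.mono hwκ) (w * u)) = n := h3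
          omega)
        rw [altF_add, h1, hg, hm1, mul_one]
        by_cases h2 : len M w = n
        · rw [if_pos h2, er_one, one_smul, hδ, smul_smul, mul_one_div_cancel, one_smul]
          · abel
          · exact_mod_cast (parF_card_pos hκs).ne'
        · rw [if_neg h2, smul_zero, add_zero]
          exact hfy w hw hwκ (by omega)
  obtain ⟨f, hf, hfy⟩ := key ((parF M τ).sup (fun w => len M w) + 1)
  refine ⟨f, hf, fun w hw hwκ => hfy w hw hwκ ?_⟩
  have h1 : len M w ≤ (parF M τ).sup (fun w => len M w) :=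
    Finset.le_sup (f := fun w => len M w) ((mem_parF hτ w).2 hw)
  omega

end Pool.Agent.H19.PL
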