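import Pool.Agent.H19.PL.Col
import Pool.Agent.H19.PD.Zig

/-!
# Project PDL: the adjoint zig-zag
-/

set_option autoImplicit false
set_option linter.unusedSectionVars false

open Finset

namespace Pool.Agent.H19.PL

open Pool.Agent.H4.FC Pool.Agent.H85.Fold Pool.Agent.H19.PD

variable {V : Type} [Fintype V] [DecidableEq V] {M : CoxeterMatrix V} {S : Type} [AddCommGroup S]
  [Module ℝ S] {U : M.Group →* Module.End ℝ S} {β : S →ₗ[ℝ] S →ₗ[ℝ] ℝ} {ν : V → ℕ}
  {G : SimpleGraph V}

/-- the reflections are symmetric for the form -/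
def SymU (U : M.Group →* Module.End ℝ S) (β : S →ₗ[ℝ] S →ₗ[ℝ] ℝ) : Prop :=
  ∀ v x y, β (U (M.simple v) x) y = β x (U (M.simple v) y)

/-- anti-invariants pair with the antisymmetrization -/
theorem pair_PS (hU : SymU U β) {κ : Finset V} (hκ : Sph M κ) {x : S} (hx : AntiS U κ x) (y : S) :
    β x (PS U κ y) = β x y := by
  have h1 : ∀ u ∈ par M κ, ∀ y, β x (U u y) = er M u * β x y := by
    refine par_induction M κ ?_ ?_
    · intro y
      rw [map_one, er_one, one_mul]
      rfl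
    · intro v hv w ih y
      have h2 : U (M.simple v * w) y = U (M.simple v) (U w y) := by
        rw [map_mul]
        rfl
      rw [h2, ← hU, hx v hv, map_neg, LinearMap.neg_apply, ih, er_mul, er_simple]
      ring
  rw [PS_apply, map_smul, map_sum]
  have h2 : ∀ u ∈ parF M κ, β x (er M u • U u y) = β x y := by
    intro u hu
    rw [map_smul, h1 u ((mem_parF hκ u).1 hu), smul_eq_mul, ← mul_assoc, er_sq, one_mul]
  rw [sum_congr rfl h2, sum_const, ← Nat.cast_smul_eq_nsmul ℝ, smul_smul,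
    one_div_mul_cancel (card_ne hκ), one_smul]

/-- double chains in a single bidegree -/
structure IsWL (U : M.Group →* Module.End ℝ S) (G : SimpleGraph V) (a b : ℕ)
    (w : Finset V → Finset V → S) : Prop where
  anti : ∀ ρ σ, AntiS U ρ (w ρ σ)
  supp : ∀ ρ σ, w ρ σ ≠ 0 → ρ ⊆ σ ∧ Cl G σ ∧ ρ.card = a ∧ σ.card = b

/-- the adjoint of `d1` -/
noncomputable def e1L (ν : V → ℕ) (U : M.Group →* Module.End ℝ S) (w : Finset V → Finset V → S)
    (ρ σ : Finset V) : S :=
  if ρ ⊆ σ then ∑ v ∈ ρ, sgn ν v ρ • PS U ρ (w (ρ.erase v) σ) else 0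

theorem e1L_e2 (w : Finset V → Finset V → S) : e1L ν U (e2 ν w) = e2 ν (e1L ν U w) := by
  funext ρ σ
  unfold e1L
  by_cases h : ρ ⊆ σ
  · rw [if_pos h]
    unfold e2
    rw [if_pos h]
    show ∑ v ∈ ρ, sgn ν v ρ • PS U ρ (if ρ.erase v ⊆ σ then
        ∑ u ∈ σᶜ, sgn ν u σ • w (ρ.erase v) (insert u σ) else 0) =
      ∑ u ∈ σᶜ, sgn ν u σ • (if ρ ⊆ insert u σ then
        ∑ v ∈ ρ, sgn ν v ρ • PS U ρ (w (ρ.erase v) (insert u σ)) else 0)
    have h1 : ∀ v ∈ ρ, sgn ν v ρ • PS U ρ (if ρ.erase v ⊆ σ then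
        ∑ u ∈ σᶜ, sgn ν u σ • w (ρ.erase v) (insert u σ) else 0) =
        ∑ u ∈ σᶜ, (sgn ν v ρ * sgn ν u σ) • PS U ρ (w (ρ.erase v) (insert u σ)) := by
      intro v _
      rw [if_pos ((erase_subset _ _).trans h), map_sum, smul_sum]
      refine sum_congr rfl fun u _ => ?_
      rw [map_smul, smul_smul]
    have h2 : ∀ u ∈ σᶜ, sgn ν u σ • (if ρ ⊆ insert u σ then
        ∑ v ∈ ρ, sgn ν v ρ • PS U ρ (w (ρ.erase v) (insert u σ)) else 0) =
        ∑ v ∈ ρ, (sgn ν v ρ * sgn ν u σ) • PS U ρ (w (ρ.erase v) (insert u σ)) := by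
      intro u _
      rw [if_pos (h.trans (subset_insert _ _)), smul_sum]
      refine sum_congr rfl fun v _ => ?_
      rw [smul_smul, mul_comm]
    rw [sum_congr rfl h1, sum_congr rfl h2, sum_comm]
  · rw [if_neg h]
    unfold e2
    rw [if_neg h]

/-- `e1L` is adjoint to `d1` -/
theorem pp_d1L (hU : SymU U β) {x u : Finset V → Finset V → S}
    (hx : ∀ ρ σ, AntiS U ρ (x ρ σ)) (hxs : ∀ ρ σ, x ρ σ ≠ 0 → ρ ⊆ σ ∧ Sph M σ) :
    pp β (d1 ν x) u = pp β x (e1L ν U u) := by
  unfold pp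
  rw [sum_comm, sum_comm (f := fun ρ σ => β (x ρ σ) (e1L ν U u ρ σ))]
  refine sum_congr rfl fun σ _ => ?_
  have hL : ∑ ρ : Finset V, β (d1 ν x ρ σ) (u ρ σ) =
      ∑ ρ : Finset V, ∑ v ∈ ρᶜ, sgn ν v ρ * β (x (insert v ρ) σ) (u ρ σ) := by
    refine sum_congr rfl fun ρ _ => ?_
    show β (∑ v ∈ σ \ ρ, sgn ν v ρ • x (insert v ρ) σ) (u ρ σ) = _
    rw [map_sum, LinearMap.sum_apply]
    have hsub : σ \ ρ ⊆ ρᶜ := fun v hv => mem_compl.2 (mem_sdiff.1 hv).2
    rw [← sum_subset hsub]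
    · refine sum_congr rfl fun v _ => ?_
      rw [map_smul, LinearMap.smul_apply, smul_eq_mul]
    · intro v hv hv2
      have h0 : x (insert v ρ) σ = 0 := by
        by_contra hne
        exact hv2 (mem_sdiff.2 ⟨(hxs _ _ hne).1 (mem_insert_self v ρ), mem_compl.1 hv⟩)
      rw [h0, map_zero, LinearMap.zero_apply, mul_zero]
  have hR : ∑ ρ : Finset V, β (x ρ σ) (e1L ν U u ρ σ) =
      ∑ ρ : Finset V, ∑ v ∈ ρ, sgn ν v ρ * β (x ρ σ) (u (ρ.erase v) σ) := by
    refine sum_congr rfl fun ρ _ => ?_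
    by_cases h0 : x ρ σ = 0
    · rw [h0, map_zero, LinearMap.zero_apply]
      symm
      refine sum_eq_zero fun v _ => ?_
      rw [LinearMap.zero_apply, mul_zero]
    · unfold e1L
      obtain ⟨h1, h2⟩ := hxs _ _ h0
      rw [if_pos h1, map_sum]
      refine sum_congr rfl fun v hv => ?_
      rw [map_smul, smul_eq_mul, pair_PS hU (h2.mono h1) (hx ρ σ)]
  rw [hL, hR, sum_sigma', sum_sigma']
  refine sum_bij' (fun z _ => ⟨insert z.2 z.1, z.2⟩) (fun z _ => ⟨z.1.erase z.2, z.2⟩)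
    ?_ ?_ ?_ ?_ ?_
  · rintro ⟨ρ, v⟩ h
    simp only [mem_sigma, mem_univ, true_and, mem_insert_self]
  · rintro ⟨ρ, v⟩ h
    simp only [mem_sigma, mem_univ, true_and, mem_compl, mem_erase, ne_eq, not_true_eq_false,
      false_and, not_false_eq_true]
  · rintro ⟨ρ, v⟩ h
    simp only [mem_sigma, mem_univ, true_and, mem_compl] at h
    simp only [erase_insert h]
  · rintro ⟨ρ, v⟩ h
    simp only [mem_sigma, mem_univ, true_and] at h
    simp only [insert_erase h]
  · rintro ⟨ρ, v⟩ h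
    simp only [mem_sigma, mem_univ, true_and, mem_compl] at h
    simp only [erase_insert h, sgn_insert_self]

/-- one step of the zig-zag -/
theorem stepL (hG : ∀ σ, Cl G σ → Sph M σ) (hν : Function.Injective ν) {a b : ℕ}
    {w : Finset V → Finset V → S} (hw : IsWL U G (a + 1) b w) (h1 : e1L ν U w = 0)
    (h2 : e2 ν w = 0) :
    ∃ u, IsWL U G a b u ∧ e1L ν U u = w ∧ e1L ν U (e2 ν u) = 0 ∧ e2 ν (e2 ν u) = 0 := by
  classical
  have hcol : ∀ σ : Finset V, ∃ u : Finset V → S, (∀ ρ, AntiS U ρ (u ρ)) ∧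
      (∀ ρ, u ρ ≠ 0 → ρ ⊆ σ ∧ Cl G σ ∧ ρ.card = a ∧ σ.card = b) ∧
      ∀ ρ ⊆ σ, ∑ v ∈ ρ, sgn ν v ρ • PS U ρ (u (ρ.erase v)) = w ρ σ := by
    intro σ
    by_cases hσ : Cl G σ ∧ σ.card = b
    · obtain ⟨u, hu1, hu2, hu3⟩ := colL U hν a σ (hG σ hσ.1) (fun ρ => w ρ σ)
        (fun ρ => hw.anti ρ σ)
        (fun ρ h => ⟨(hw.supp ρ σ h).1, (hw.supp ρ σ h).2.2.1⟩) (by
          intro ρ hρ
          have h3 := congrFun (congrFun h1 ρ) σ
          unfold e1L at h3
          rw [if_pos hρ] at h3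
          exact h3)
      exact ⟨u, hu1, fun ρ h => ⟨(hu2 ρ h).1, hσ.1, (hu2 ρ h).2, hσ.2⟩, hu3⟩
    · refine ⟨0, fun ρ v _ => by rw [Pi.zero_apply, map_zero, neg_zero], fun ρ h => absurd rfl h,
        fun ρ _ => ?_⟩
      have h0 : w ρ σ = 0 := by
        by_contra hne
        obtain ⟨-, h4, -, h5⟩ := hw.supp ρ σ hne
        exact hσ ⟨h4, h5⟩
      rw [h0]
      exact sum_eq_zero fun v _ => by
        rw [Pi.zero_apply, map_zero, smul_zero]
  choose u hu1 hu2 hu3 using hcol
  have he : e1L ν U (fun ρ σ => u σ ρ) = w := by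
    funext ρ σ
    unfold e1L
    by_cases h : ρ ⊆ σ
    · rw [if_pos h]
      exact hu3 σ ρ h
    · rw [if_neg h]
      by_contra hne
      exact h (hw.supp ρ σ (Ne.symm hne)).1
  refine ⟨fun ρ σ => u σ ρ, ⟨fun ρ σ => hu1 σ ρ, fun ρ σ h => hu2 σ ρ h⟩, he, ?_,
    e2_e2 hν _⟩
  rw [e1L_e2, he, h2]

theorem isWL_e2 {a b : ℕ} {u : Finset V → Finset V → S} (hu : IsWL U G a (b + 1) u) :
    IsWL U G a b (e2 ν u) := by
  refine ⟨fun ρ σ v hv => ?_, fun ρ σ hne => ?_⟩
  · unfold e2
    split_ifs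
    · show U (M.simple v) (∑ z ∈ σᶜ, sgn ν z σ • u ρ (insert z σ)) =
        -∑ z ∈ σᶜ, sgn ν z σ • u ρ (insert z σ)
      rw [map_sum, ← sum_neg_distrib]
      refine sum_congr rfl fun z _ => ?_
      rw [map_smul, hu.anti ρ _ v hv, smul_neg]
    · rw [map_zero, neg_zero]
  · unfold e2 at hne
    split_ifs at hne with h
    · have h1 : ∑ z ∈ σᶜ, sgn ν z σ • u ρ (insert z σ) ≠ 0 := hne
      obtain ⟨z, hz, hz'⟩ := exists_ne_zero_of_sum_ne_zero h1
      obtain ⟨h2, h3, h4, h5⟩ := hu.supp _ _ (right_ne_zero_of_smul hz')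
      rw [card_insert_of_notMem (mem_compl.1 hz)] at h5
      exact ⟨h, fun a ha b hb hab => h3 a (mem_insert_of_mem ha) b (mem_insert_of_mem hb) hab, h4,
        by omega⟩
    · exact absurd rfl hne

/-- the operators whose kernels are the anti-invariants -/
noncomputable def eU (U : M.Group →* Module.End ℝ S) (v : V) : S →ₗ[ℝ] S :=
  LinearMap.id + (U (M.simple v) : S →ₗ[ℝ] S)

theorem eU_zero {v : V} {x : S} : eU U v x = 0 ↔ U (M.simple v) x = -x := by
  have h : eU U v x = x + U (M.simple v) x := rfl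
  rw [h, add_eq_zero_iff_neg_eq, eq_comm]

/-- the operators whose kernels are the invariants -/
noncomputable def fU (U : M.Group →* Module.End ℝ S) (v : V) : S →ₗ[ℝ] S :=
  LinearMap.id - (U (M.simple v) : S →ₗ[ℝ] S)

theorem fU_zero {v : V} {x : S} : fU U v x = 0 ↔ U (M.simple v) x = x := by
  have h : fU U v x = x - U (M.simple v) x := rfl
  rw [h, sub_eq_zero, eq_comm]

/-- the singletons -/
theorem PS_single {v : V} (hs : Sph M {v}) {x : S} (h : PS U {v} x = 0) : U (M.simple v) x = x := by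
  classical
  by_cases h1 : M.simple v = 1
  · rw [h1, map_one]
    rfl
  have hp : parF M {v} = {1, M.simple v} := by
    ext u
    rw [mem_parF hs, mem_insert, mem_singleton]
    constructor
    · intro hu
      have key := par_induction M {v} (p := fun u => u = 1 ∨ u = M.simple v) (Or.inl rfl) (by
        intro v' hv' w hw
        rw [mem_singleton.1 hv']
        rcases hw with rfl | rfl
        · exact Or.inr (mul_one _)
        · exact Or.inl (simple_sq M v)) u hu
      exact key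
    · rintro (rfl | rfl)
      · exact one_mem _
      · exact simple_mem_par M (mem_singleton_self v)
  rw [PS_apply, hp, sum_pair (fun h2 => h1 h2.symm), er_one, er_simple, one_smul, map_one,
    smul_eq_zero] at h
  have h2 := h.resolve_left (by
    rw [card_pair (fun h2 => h1 h2.symm)]
    norm_num)
  have h3 : x + (-1 : ℝ) • U (M.simple v) x = 0 := h2
  rw [neg_one_smul, ← sub_eq_add_neg, sub_eq_zero] at h3
  exact h3.symm

/-- **The adjoint zig-zag.** -/
theorem zigL (hG : ∀ σ, Cl G σ → Sph M σ) (hU : SymU U β) (hν : Function.Injective ν) {n : ℕ}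
    {o : Finset V → ℝ} (hS : IsSphere ν G n univ o) {i : ℕ} (hin : i ≤ n) {c : Finset V → S}
    (hc : IsF G (eU U) ⊤ univ i c)
    (hco : ∀ ρ, Cl G ρ → ρ.card = i + 1 → ∑ v ∈ ρ, sgn ν v ρ • PS U ρ (c (ρ.erase v)) = 0)
    {c' : Finset V → S} {x : Finset V → Finset V → S}
    (hx : IsRes ν G (eU U) n ⊤ univ o i c' x) :
    ∃ f : Finset V → S, IsF G (fU U) ⊤ univ (n - i) f ∧ bd ν f = 0 ∧
      pr β x f = ∑ ρ : Finset V, β (c' ρ) (c ρ) := by
  classical
  have hfac : ∀ σ, σ ∈ fac G n univ ↔ Cl G σ ∧ σ.card = n := by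
    intro σ
    simp [fac]
  have hxf : ∀ ρ σ, AntiS U ρ (x ρ σ) := fun ρ σ v hv =>
    eU_zero.1 (hx.isD.ker ρ σ v hv)
  have hxs : ∀ ρ σ, x ρ σ ≠ 0 → ρ ⊆ σ := fun ρ σ h => (hx.isD.supp ρ σ h).1
  have hxs' : ∀ ρ σ, x ρ σ ≠ 0 → ρ ⊆ σ ∧ Sph M σ := fun ρ σ h =>
    ⟨(hx.isD.supp ρ σ h).1, hG σ (hx.isD.supp ρ σ h).2.2.1⟩
  have key : ∀ k, k ≤ i → ∃ w, IsWL U G (i - k) (n - k) w ∧ e1L ν U w = 0 ∧ e2 ν w = 0 ∧
      pp β x w = ∑ ρ : Finset V, β (c' ρ) (c ρ) := by
    intro k
    induction k with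
    | zero =>
      intro _
      refine ⟨fun ρ σ => if ρ ⊆ σ ∧ σ ∈ fac G n univ then o σ • c ρ else 0, ⟨?_, ?_⟩, ?_, ?_, ?_⟩
      · intro ρ σ v hv
        beta_reduce
        split_ifs
        · rw [map_smul, eU_zero.1 (hc.ker ρ v hv), smul_neg]
        · rw [map_zero, neg_zero]
      · intro ρ σ hne
        beta_reduce at hne
        split_ifs at hne with h
        · have h1 := hc.supp ρ (right_ne_zero_of_smul hne)
          have h2 := (hfac σ).1 h.2
          exact ⟨h.1, h2.1, h1.2.2, h2.2⟩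
        · exact absurd rfl hne
      · funext ρ σ
        unfold e1L
        by_cases h : ρ ⊆ σ
        · rw [if_pos h]
          by_cases hf : σ ∈ fac G n univ
          · have h1 : ∀ v ∈ ρ, sgn ν v ρ • PS U ρ (if ρ.erase v ⊆ σ ∧ σ ∈ fac G n univ then
                o σ • c (ρ.erase v) else 0) = o σ • (sgn ν v ρ • PS U ρ (c (ρ.erase v))) := by
              intro v _
              rw [if_pos ⟨(erase_subset _ _).trans h, hf⟩, map_smul, smul_comm]
            rw [sum_congr rfl h1, ← smul_sum]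
            by_cases hcard : ρ.card = i + 1
            · rw [hco ρ (fun a ha b hb hab => ((hfac σ).1 hf).1 a (h ha) b (h hb) hab) hcard,
                smul_zero]
              rfl
            · have h2 : ∑ v ∈ ρ, sgn ν v ρ • PS U ρ (c (ρ.erase v)) = 0 := by
                refine sum_eq_zero fun v hv => ?_
                have h3 : c (ρ.erase v) = 0 := by
                  by_contra hne
                  have h4 := (hc.supp _ hne).2.2
                  have h5 := card_erase_add_one hv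
                  omega
                rw [h3, map_zero, smul_zero]
              rw [h2, smul_zero]
              rfl
          · refine sum_eq_zero fun v _ => ?_
            beta_reduce
            rw [if_neg (fun h3 => hf h3.2), map_zero, smul_zero]
        · rw [if_neg h]
          rfl
      · funext ρ σ
        unfold e2
        by_cases h : ρ ⊆ σ
        · rw [if_pos h]
          show ∑ v ∈ σᶜ, sgn ν v σ • (if ρ ⊆ insert v σ ∧ insert v σ ∈ fac G n univ then
            o (insert v σ) • c ρ else 0) = 0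
          have h1 : ∀ v ∈ σᶜ, sgn ν v σ • (if ρ ⊆ insert v σ ∧ insert v σ ∈ fac G n univ then
              o (insert v σ) • c ρ else 0) = (if v ∉ σ ∧ insert v σ ∈ fac G n univ then
              sgn ν v σ * o (insert v σ) else 0) • c ρ := by
            intro v hv
            by_cases h2 : insert v σ ∈ fac G n univ
            · rw [if_pos ⟨h.trans (subset_insert _ _), h2⟩, if_pos ⟨mem_compl.1 hv, h2⟩, smul_smul]
            · rw [if_neg (fun h3 => h2 h3.2), if_neg (fun h3 => h2 h3.2), smul_zero, zero_smul]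
          rw [sum_congr rfl h1, ← sum_smul]
          have h3 : ∑ v ∈ σᶜ, (if v ∉ σ ∧ insert v σ ∈ fac G n univ then
              sgn ν v σ * o (insert v σ) else 0) = 0 := by
            by_cases h4 : ∃ v, v ∉ σ ∧ insert v σ ∈ fac G n univ
            · obtain ⟨v, hv, hv2⟩ := h4
              obtain ⟨h5, h6⟩ := (hfac _).1 hv2
              rw [card_insert_of_notMem hv] at h6
              have h7 := hS.cyc σ (subset_univ _) (fun a ha b hb hab =>
                h5 a (mem_insert_of_mem ha) b (mem_insert_of_mem hb) hab) h6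
              refine Eq.trans (sum_subset (subset_univ _) fun z _ hz => ?_) h7
              rw [if_neg (fun h8 => hz (mem_compl.2 h8.1))]
            · refine sum_eq_zero fun v _ => ?_
              rw [if_neg (fun h5 => h4 ⟨v, h5⟩)]
          rw [h3, zero_smul]
        · rw [if_neg h]
          rfl
      · unfold pp
        refine sum_congr rfl fun ρ _ => ?_
        have h1 : c' ρ = ∑ σ ∈ fac G n univ, o σ • x ρ σ := by
          rw [← hx.aug_eq]
          rfl
        rw [h1, map_sum, LinearMap.sum_apply, ← sum_subset (subset_univ (fac G n univ))]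
        · refine sum_congr rfl fun σ hσ => ?_
          rw [map_smul, LinearMap.smul_apply, smul_eq_mul]
          by_cases h0 : x ρ σ = 0
          · rw [h0, map_zero, LinearMap.zero_apply, LinearMap.zero_apply, mul_zero]
          · beta_reduce
            rw [if_pos ⟨hxs _ _ h0, hσ⟩, map_smul, smul_eq_mul]
        · intro σ _ hσ
          beta_reduce
          rw [if_neg (fun h => hσ h.2), map_zero]
    | succ k ih =>
      intro hk
      obtain ⟨w, hw, h1, h2, h3⟩ := ih (by omega)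
      have ea : i - k = (i - (k + 1)) + 1 := by omega
      have eb : n - k = (n - (k + 1)) + 1 := by omega
      rw [ea, eb] at hw
      obtain ⟨u, hu, hu1, hu2, hu3⟩ := stepL hG hν hw h1 h2
      refine ⟨e2 ν u, isWL_e2 hu, hu2, hu3, ?_⟩
      rw [← pp_d2 hxs fun ρ σ h => ⟨(hu.supp ρ σ h).1, (hu.supp ρ σ h).2.1⟩, ← hx.closed,
        pp_d1L hU hxf hxs', hu1, h3]
  obtain ⟨w, hw, h1, h2, h3⟩ := key i le_rfl
  rw [Nat.sub_self] at hw
  have hw0 : ∀ ρ σ, ρ ≠ ∅ → w ρ σ = 0 := by
    intro ρ σ h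
    by_contra hne
    exact h (card_eq_zero.1 (hw.supp ρ σ hne).2.2.1)
  refine ⟨w ∅, ⟨fun σ => Submodule.mem_top, fun σ v hv => ?_, fun σ hne => ?_⟩, ?_, ?_⟩
  · rw [fU_zero]
    have h4 := congrFun (congrFun h1 {v}) σ
    unfold e1L at h4
    rw [if_pos (singleton_subset_iff.2 hv), sum_singleton, erase_singleton] at h4
    have h5 : sgn ν v {v} • PS U {v} (w ∅ σ) = 0 := h4
    have hs : Sph M {v} := hG {v} (by
      intro a ha b hb hab
      rw [mem_singleton] at ha hb
      exact absurd (ha.trans hb.symm) hab)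
    refine PS_single hs ((smul_eq_zero.1 h5).resolve_left fun h6 => ?_)
    have h7 := sgn_sq ν v {v}
    rw [h6, mul_zero] at h7
    exact zero_ne_one h7
  · obtain ⟨-, h4, -, h5⟩ := hw.supp _ _ hne
    exact ⟨subset_univ _, h4, h5⟩
  · funext σ
    have h4 := congrFun (congrFun h2 ∅) σ
    unfold e2 at h4
    rw [if_pos (empty_subset _)] at h4
    exact h4
  · rw [← h3]
    unfold pr pp
    symm
    refine sum_eq_single (∅ : Finset V) ?_ fun h => absurd (mem_univ _) h
    intro ρ _ hρ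
    refine sum_eq_zero fun σ _ => ?_
    rw [hw0 ρ σ hρ, map_zero]

end Pool.Agent.H19.PL
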